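import Pool.Agent.H540.DS.Rel5

/-!
# Almost prime values of `x ^ 2 + x + A₀` at the differences of the elements of a dense subset of a sifted set

The theorem of Furstenberg and Sárközy for the almost prime values of `x ^ 2 + x + A₀`, in quantitative form and relative
to any set which is obtained by a sieve of bounded dimension. Let `A₀ ≥ 1` be an integer
(in the problem it is called `A` and is odd and at least `3`).

For the primes `p ≤ N ^ κ` let `Z p` be a set of at most `h` residue classes modulo `p`, not all of them,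
and let `V` be the product of the numbers `1 - |Z p| / p`. Every set `A` of integers in `[1, N]` which
avoids these classes and has at least `N V / (log N) ^ (1 - ε)` elements (by the upper bound sieve a sifted
set has at most a constant times `N V` elements, so that the relative density of `A` may be as small as
`(log N) ^ (-1 + ε)`) has at least `exp (-C (N V / |A|) ^ (1 + ε)) (N V) ^ 2 / log N` pairs of elements
`b < a` for which, with `m = a - b`, the value
`m ^ 2 + m + A₀` is `A₀` times an integer with at most three prime factors, counted with multiplicity, all at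
least `N ^ (6 / 25)` (the factor `A₀` is necessary: all elements of `A` may be multiples of `A₀`). This is uniform in the sets `Z p`.

Examples: `Z p` empty (arbitrary dense sets of integers); `Z p` the class of zero (dense sets of primes, of
relative density `(log N) ^ (-1 + ε)` in the primes); `Z p` the roots of the polynomial `x ^ 2 + x + A₀` itself
modulo `p` (dense sets of arguments at which the polynomial has no prime factor up to `N ^ κ`). For positive
relative density the number of the pairs has the order of magnitude `(N V) ^ 2 / log N`, the largest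
possible one.

Method: a weighted sieve (linear sieve with the weights of Richert) applied to the set of all pairs. The level
of distribution `N ^ (1 - o(1))` of the pairs is given by a large sieve inequality for the sifted sets,
whose constant is the inverse of the relative density and in which the loss for the moduli `q` is only
`q ^ o(1)`. Since the constant is large, the sieve starts with the primes larger than it: the
elements are taken in one residue class modulo the product `W` of all smaller primes and `A₀`, so that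
the values at the differences are free of them. The primes up to `(log N) ^ (1 - ε / 4)` are treated
exactly, by Fourier analysis on a finite cyclic group, those up to a power of `log N` by the inequalities
of Bonferroni, and the larger ones by the weighted sieve. The prime ideal theorem gives the density of the
roots of the polynomial modulo primes.
-/

set_option autoImplicit false

namespace Pool.Agent.Results.MP_8be758_nt.DenseSubsetsOfSiftedSets

open Finset Filter Polynomial

/-- `n` has at most three prime factors, counted with multiplicity, and all of them are at least `y`. -/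
def AlmostPrime (y : ℝ) (n : ℕ) : Prop :=
  n.primeFactorsList.length ≤ 3 ∧ ∀ p : ℕ, p.Prime → p ∣ n → y ≤ p

open Classical in
/-- The number of pairs of elements `b < a` of `A` for which, with `m = a - b`, `m ^ 2 + m + A₀ = A₀ n`,
where `n` has at most three prime factors, counted with multiplicity, all at least `y`. -/
noncomputable def pairCount (A₀ : ℕ) (A : Finset ℕ) (y : ℝ) : ℕ :=
  ((A ×ˢ A).filter (fun z : ℕ × ℕ => z.2 < z.1 ∧ 
    ∃ n : ℕ, (z.1 - z.2) ^ 2 + (z.1 - z.2) + A₀ = A₀ * n ∧ AlmostPrime y n)).card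

/-- `Z p` is a set of at most `h` residue classes modulo `p`, but not of all classes, for each prime `p ≤ y`. -/
def Classes (h : ℕ) (y : ℝ) (Z : ℕ → Finset ℕ) : Prop :=
  ∀ p : ℕ, p.Prime → (p : ℝ) ≤ y → (Z p).card ≤ h ∧ (Z p).card < p ∧ ∀ c ∈ Z p, c < p

/-- No element of `A` is modulo a prime `p ≤ y` in a class of `Z p`. -/
def Avoids (y : ℝ) (Z : ℕ → Finset ℕ) (A : Finset ℕ) : Prop :=
  ∀ n ∈ A, ∀ p : ℕ, p.Prime → (p : ℝ) ≤ y → n % p ∉ Z p

/-- The product of `1 - |Z p| / p` over the primes `p ≤ y`, the expected density of the sifted set. -/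
noncomputable def dens (y : ℝ) (Z : ℕ → Finset ℕ) : ℝ :=
  ∏ p ∈ (Icc 1 ⌊y⌋₊).filter Nat.Prime, (1 - ((Z p).card : ℝ) / p)

theorem deg {A₀ : ℕ} : (X ^ 2 + X + C (A₀ : ℤ) : ℤ[X]).natDegree = 2 := by compute_degree!

theorem irr (A₀ : ℕ) (hA₀ : 1 ≤ A₀) : Irreducible (X ^ 2 + X + C (A₀ : ℤ) : ℤ[X]) := by
  have hm : (X ^ 2 + X + C (A₀ : ℤ) : ℤ[X]).Monic := by monicity!
  rw [Monic.irreducible_iff_roots_eq_zero_of_degree_le_three hm (by rw [deg]) (by rw [deg]; norm_num)]
  rw [Multiset.eq_zero_iff_forall_notMem]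
  intro x hx
  rw [mem_roots hm.ne_zero, IsRoot.def] at hx
  simp only [eval_add, eval_pow, eval_X, eval_C] at hx
  have h1 : (1 : ℤ) ≤ A₀ := by exact_mod_cast hA₀
  nlinarith [sq_nonneg (2 * x + 1)]

theorem ev0 (A₀ : ℕ) : (X ^ 2 + X + C (A₀ : ℤ) : ℤ[X]).eval 0 = A₀ := by simp

open Classical in
theorem count (A₀ : ℕ) (A : Finset ℕ) (y : ℝ) : (((A ×ˢ A).filter (fun z : ℕ × ℕ => z.2 < z.1 ∧
    Pool.Agent.H540.DS.GoodF (X ^ 2 + X + C (A₀ : ℤ)) 3 y (z.1 - z.2))).card : ℝ) ≤
    (pairCount A₀ A y : ℝ) := by
  have h1 : (A ×ˢ A).filter (fun z : ℕ × ℕ => z.2 < z.1 ∧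
        Pool.Agent.H540.DS.GoodF (X ^ 2 + X + C (A₀ : ℤ)) 3 y (z.1 - z.2)) ⊆
      (A ×ˢ A).filter (fun z : ℕ × ℕ => z.2 < z.1 ∧
          ∃ n : ℕ, (z.1 - z.2) ^ 2 + (z.1 - z.2) + A₀ = A₀ * n ∧ AlmostPrime y n) := by
    intro z hz
    rw [mem_filter] at hz ⊢
    refine ⟨hz.1, hz.2.1, ?_⟩
    obtain ⟨n, h1, h2, h3⟩ := hz.2.2
    refine ⟨n, ?_, h2, h3⟩
    rw [ev0, Int.natAbs_natCast] at h1
    rw [← h1]
    simp only [eval_add, eval_pow, eval_X, eval_C]
    have : ((((z.1 - z.2 : ℕ)) : ℤ) ^ 2 + ((z.1 - z.2 : ℕ) : ℤ) + (A₀ : ℤ)) =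
        (((z.1 - z.2) ^ 2 + (z.1 - z.2) + A₀ : ℕ) : ℤ) := by push_cast; rfl
    rw [this, Int.natAbs_natCast]
  unfold pairCount
  exact_mod_cast card_le_card h1

theorem dens_eq (y : ℝ) (Z : ℕ → Finset ℕ) :
    Pool.Agent.Y843.HS.VV Z 0 ⌊y⌋₊ = dens y Z := by
  unfold Pool.Agent.Y843.HS.VV Pool.Agent.Y843.HS.Pr dens
  congr 1

/-- **Almost prime values of `x ^ 2 + x + A₀` at the differences of a dense subset of a sifted set.** Let `A₀ ≥ 1` and `0 < ε ≤ 1`,
`h` be a natural number and `κ > 0`. There is `C > 0` such that for all sufficiently large `N`, for any sets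
`Z p` of at most `h` residue classes modulo the primes `p ≤ N ^ κ` (not all classes) with the density `V`, every
set `A` of integers in `[1, N]` which avoids these classes and has at least `N V / (log N) ^ (1 - ε)` elements has
at least `exp (-C (N V / |A|) ^ (1 + ε)) (N V) ^ 2 / log N` pairs of elements `b < a` for which,
with `m = a - b`, the value `m ^ 2 + m + A₀` is `A₀` times an integer with at most three prime factors, counted
with multiplicity, all at least `N ^ (6 / 25)`. -/
theorem result (A₀ : ℕ) (hA₀ : 1 ≤ A₀) (ε : ℝ) (hε : 0 < ε) (hε1 : ε ≤ 1) (h : ℕ) (κ : ℝ) (hκ : 0 < κ) :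
    ∃ C : ℝ, 0 < C ∧ ∀ᶠ N : ℕ in atTop,
      ∀ Z : ℕ → Finset ℕ, Classes h ((N : ℝ) ^ κ) Z → ∀ A : Finset ℕ, A ⊆ Icc 1 N →
      Avoids ((N : ℝ) ^ κ) Z A →
      N * dens ((N : ℝ) ^ κ) Z / Real.log N ^ (1 - ε) ≤ (A.card : ℝ) →
      Real.exp (-(C * (N * dens ((N : ℝ) ^ κ) Z / A.card) ^ (1 + ε))) *
        ((N * dens ((N : ℝ) ^ κ) Z) ^ 2 / Real.log N) ≤
        (pairCount A₀ A ((N : ℝ) ^ (6 / 25 : ℝ)) : ℝ) := by
  have hd : 0 < (X ^ 2 + X + Polynomial.C (A₀ : ℤ) : ℤ[X]).natDegree := by rw [deg]; norm_num
  have h0 : (X ^ 2 + X + Polynomial.C (A₀ : ℤ) : ℤ[X]).eval 0 ≠ 0 := by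
    rw [ev0]
    exact_mod_cast (show A₀ ≠ 0 by omega)
  obtain ⟨C, hC, hh⟩ := Pool.Agent.H540.DS.rels _ (irr A₀ hA₀) hd h0 3 (by rw [deg]; norm_num) h κ ε
    hκ hε hε1
  refine ⟨C, hC, ?_⟩
  filter_upwards [hh] with N hN Z hZ A hA hAZ hAc
  rw [← dens_eq] at hAc ⊢
  exact (hN Z hZ A hA hAZ hAc).trans (count A₀ A _)

end Pool.Agent.Results.MP_8be758_nt.DenseSubsetsOfSiftedSets
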