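import Mathlib
import Pool.Agent.H568.LB.LoE
import Pool.Agent.H568.PH.Sub

/-!
# A lower bound of the true order for the primes `x² + x + A`, for almost all odd `A ≤ H`, `N^(5/8+ε) ≤ H ≤ N`, and for a positive proportion of them, `H ≥ N^(1/2+ε)`

For every `H` with `N^(5/8+ε) ≤ H ≤ N` and almost all the odd numbers `3 ≤ A ≤ H` the number `P_A(n)` of the primes
`x² + x + A`, `0 ≤ x ≤ n`, is for all `n ≤ N` at least `1/10` times the number `C(Δ) L_A(n)`, `Δ = 1 - 4 A`, of the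
problem, up to an error `η C(Δ) L_A(N)`. So for almost all odd `A` there are such primes, in the right order of magnitude, at
`x ≤ n` for all `n` from `A` to `A^(8/5 - ε)`. For `H ≥ N^(1/2+ε)` a positive proportion of the odd `A ≤ H` have at least
`κ N / log N` such primes with `x ≤ N`. (`MP_8be758_nt.TwoSidedThinFamily` has the factors `1/2` and `5/3` for
`H ≥ N^(2/3+ε)`; the library has the asymptotic formula for `H ≥ N^(5/6+ε)` and a lower bound for `H ≥ N^(7/10+ε)`.)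

Proof. `low58_c` (`Pool.Agent.H568.LB`) with `a = b = 1`. For `H ≥ N^(5/8+ε)` the divisors `j` of the values with
`N^(7/8) < j < N^(1-ε')` and the smaller ones are accessible on average over `A` (large sieve over the roots of the
congruences, `N792` of the library). New are: (1) the values with a divisor near `N` are few for `H ≥ N^(3/5)`, by the
double large sieve for whole blocks of frequencies (`LB/P/BLK`, `LB/P/TRB`, `LB/P/X3D`); (2) after a sieve by the primes
`≤ N^(1/4+ε')` the weight `μ(d)` with up to seven prime factors, in which the pairs of primes `q < p` with `q p ≤ U`,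
`q² p > V`, `U V` the size of the values, are dropped, together with bilinear corrections for the products of three
primes with a large factor and for the products of five primes; the loss is at most `9/20` of `N / log N` (all primes:
`1/2`), integrals over the simplex of the exponents being bounded by Riemann sums evaluated by the kernel. The part on
`H ≥ N^(1/2+ε)` (files `PH/*`): the values `x² + x + A`, `A ≤ H`, are detected by a triangle function of the square root;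
Vaughan's identity and the double large sieve give a lower bound of the right order for the primes among them (the method of
Balog and Harman for the primes with `{√p} < p^(-1/4+ε)`); the second moment over `A` is bounded by the upper bound sieve.
-/

set_option autoImplicit false

namespace Pool.Agent.Results.MP_8be758_nt.ThinFamilyFiveEighths

open Finset Filter Topology

/-- `P_A(n)`, the number of `x ∈ {0, ..., n}` for which `x² + x + A` is prime -/
def P (A n : ℕ) : ℕ := #((range (n + 1)).filter (fun x : ℕ => (x ^ 2 + x + A).Prime))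

/-- `L_A(n) = 2 ∫_0^n dx / log (x² + x + A)` -/
noncomputable def L (A n : ℕ) : ℝ := 2 * ∫ x in (0 : ℝ)..n, 1 / Real.log (x ^ 2 + x + A)

/-- the product of `1 - (Δ / p) / (p - 1)` over the odd primes `p ≤ z`, `Δ = 1 - 4 A`; its limit is `C(Δ)` -/
noncomputable def partialC (A z : ℕ) : ℝ :=
  ∏ p ∈ (Icc 3 z).filter Nat.Prime, (1 - (jacobiSym (1 - 4 * (A : ℤ)) p : ℝ) / ((p : ℝ) - 1))

/-- the first part -/
theorem almost_all (ε η : ℝ) (hε : 0 < ε) (hη : 0 < η) :
    ∃ N0 : ℕ, ∀ N : ℕ, N0 ≤ N → ∀ H : ℕ, (N : ℝ) ^ (5 / 8 + ε) ≤ H → H ≤ N →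
    ∃ Ex ⊆ (Icc 3 H).filter Odd, (#Ex : ℝ) ≤ η * H ∧ ∀ A ∈ (Icc 3 H).filter Odd, A ∉ Ex →
      ∃ C : ℝ, 0 < C ∧ Tendsto (partialC A) atTop (𝓝 C) ∧
        ∀ n : ℕ, n ≤ N → 1 / 10 * (C * L A n) - η * (C * L A N) ≤ (P A n : ℝ) := by
  obtain ⟨N0, h⟩ := Pool.Agent.H568.LB.euler_lo ε η hε hη
  refine ⟨N0, fun N hN H hH1 hH2 => ?_⟩
  obtain ⟨Ex, k1, k2, k3⟩ := h N hN H hH1 hH2
  refine ⟨Ex, k1, k2, fun A hA hAE => ?_⟩
  obtain ⟨C, m1, m2, m3⟩ := k3 A hA hAE
  refine ⟨C, m1, ?_, fun n hn => m3 n hn⟩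
  have e : partialC A = fun z : ℕ => Pool.Agent.N792.partialC 1 1 (A : ℤ) z := by
    funext z
    unfold partialC Pool.Agent.N792.partialC
    have e1 : (Icc 3 z).filter (fun p : ℕ => p.Prime ∧ ¬ (p : ℤ) ∣ 1) = (Icc 3 z).filter Nat.Prime := by
      apply filter_congr
      intro p _
      constructor
      · exact fun hp => hp.1
      · intro hp
        refine ⟨hp, fun h => ?_⟩
        have h1 : p ∣ 1 := by exact_mod_cast h
        exact hp.one_lt.ne' (Nat.dvd_one.1 h1)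
    rw [e1]
    refine prod_congr rfl fun p _ => ?_
    have e2 : (1 : ℤ) ^ 2 - 4 * 1 * (A : ℤ) = 1 - 4 * (A : ℤ) := by ring
    rw [e2]
  rw [e]
  exact m2

/-- the second part -/
theorem proportion (ε : ℝ) (hε : 0 < ε) :
    ∃ κ : ℝ, 0 < κ ∧ ∃ N1 : ℕ, ∀ N : ℕ, N1 ≤ N → ∀ H : ℕ, (N : ℝ) ^ (1 / 2 + ε) ≤ H → H ≤ N →
      κ * H ≤ (#(((Icc 3 H).filter Odd).filter (fun A : ℕ => κ * (N / Real.log N) ≤ (P A N : ℝ))) : ℝ) := by
  obtain ⟨κ, hκ, x0, h⟩ := Pool.Agent.H568.PH.ph_sub 1 1 le_rfl Odd (by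
    intro c hc hcQ n hn hp
    rw [Nat.not_odd_iff_even] at hcQ
    have h1 : 2 ∣ 1 * n ^ 2 + 1 * n + c := by
      have h2 : 2 ∣ n * (n + 1) := (Nat.even_mul_succ_self n).two_dvd
      have e : 1 * n ^ 2 + 1 * n + c = n * (n + 1) + c := by ring
      rw [e]
      exact dvd_add h2 hcQ.two_dvd
    have h3 := (Nat.prime_dvd_prime_iff_eq Nat.prime_two hp).1 h1
    have h4 : 1 ≤ n ^ 2 := Nat.one_le_pow _ _ hn
    omega) ε hε
  refine ⟨κ, hκ, x0, fun N hN H hH1 hH2 => ?_⟩
  obtain ⟨G, hG1, hG2⟩ := h N hN H hH1 hH2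
  refine hG1.trans (Nat.cast_le.2 (card_le_card fun c hc => ?_))
  obtain ⟨g1, g2, g3, g4⟩ := hG2 c hc
  rw [mem_filter, mem_filter, mem_Icc]
  have hc3 : 3 ≤ c := by
    obtain ⟨k, hk⟩ := g3
    omega
  refine ⟨⟨⟨hc3, g2⟩, g3⟩, g4.trans (Nat.cast_le.2 ?_)⟩
  unfold P
  apply card_le_card
  intro n hn
  rw [mem_filter, mem_Icc] at hn
  rw [mem_filter, mem_range]
  refine ⟨by omega, ?_⟩
  have e : n ^ 2 + n + c = 1 * n ^ 2 + 1 * n + c := by ring
  rw [e]
  exact hn.2

/-- **Theorem.** Let `ε, η > 0`. (1) For all large `N` and all `H` with `N^(5/8+ε) ≤ H ≤ N`, all but at most `η H` of the odd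
numbers `3 ≤ A ≤ H` have the following property: the product `C(Δ)` converges to a number `C > 0`, and for all `n ≤ N`
the number `P_A(n)` is at least `(1/10) C L_A(n) - η C L_A(N)`. (2) There is a `κ > 0` such that for all large `N` and all `H`
with `N^(1/2+ε) ≤ H ≤ N` at least `κ H` of the odd numbers `3 ≤ A ≤ H` satisfy `P_A(N) ≥ κ N / log N`. -/
theorem result (ε η : ℝ) (hε : 0 < ε) (hη : 0 < η) :
    (∃ N0 : ℕ, ∀ N : ℕ, N0 ≤ N → ∀ H : ℕ, (N : ℝ) ^ (5 / 8 + ε) ≤ H → H ≤ N →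
    ∃ Ex ⊆ (Icc 3 H).filter Odd, (#Ex : ℝ) ≤ η * H ∧ ∀ A ∈ (Icc 3 H).filter Odd, A ∉ Ex →
      ∃ C : ℝ, 0 < C ∧ Tendsto (partialC A) atTop (𝓝 C) ∧
        ∀ n : ℕ, n ≤ N → 1 / 10 * (C * L A n) - η * (C * L A N) ≤ (P A n : ℝ)) ∧
    ∃ κ : ℝ, 0 < κ ∧ ∃ N1 : ℕ, ∀ N : ℕ, N1 ≤ N → ∀ H : ℕ, (N : ℝ) ^ (1 / 2 + ε) ≤ H → H ≤ N →
      κ * H ≤ (#(((Icc 3 H).filter Odd).filter (fun A : ℕ => κ * (N / Real.log N) ≤ (P A N : ℝ))) : ℝ) :=
  ⟨almost_all ε η hε hη, proportion ε hε⟩

end Pool.Agent.Results.MP_8be758_nt.ThinFamilyFiveEighths
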