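import Mathlib
import Pool.Agent.H568.Euler

/-!
# Two bounds of the true order for the primes `x² + x + A`, for almost all odd `A ≤ H`, `N^(2/3+ε) ≤ H ≤ N`

For every `H` with `N^(2/3+ε) ≤ H ≤ N` and almost all the odd numbers `3 ≤ A ≤ H` the number `P_A(n)` of the primes
`x² + x + A`, `0 ≤ x ≤ n`, is for all `n ≤ N` between `1/2` and `5/3` times the number `C(Δ) L_A(n)`, `Δ = 1 - 4 A`, of the
problem, up to an error `η C(Δ) L_A(N)`. So for almost all odd `A` there are such primes, in the right order of magnitude, at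
`x ≤ n` for all `n` from `A` to `A^(3/2 - ε)`; the upper bound is smaller than the factor `2` of the parity barrier.
(The library has the asymptotic formula for `H ≥ N^(5/6+ε)` and a lower bound for `H ≥ N^(7/10+ε)`.)

Proof. `two_gen` (`Pool.Agent.H568`) with `a = b = 1`; the engine (an average over the constant term of the bilinear
sums over divisors up to `N^(5/6)` and between `N^(5/6)` and `N^(1-ε)`, few values with a divisor near `N`, a lower and an
upper bound sieve with bilinear corrections) is the one of `MP_391708_nt.TwoSidedThinFamily` (there for `n² + a`).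
-/

set_option autoImplicit false

namespace Pool.Agent.Results.MP_8be758_nt.TwoSidedThinFamily

open Finset Filter Topology

/-- `P_A(n)`, the number of `x ∈ {0, ..., n}` for which `x² + x + A` is prime -/
def P (A n : ℕ) : ℕ := #((range (n + 1)).filter (fun x : ℕ => (x ^ 2 + x + A).Prime))

/-- `L_A(n) = 2 ∫_0^n dx / log (x² + x + A)` -/
noncomputable def L (A n : ℕ) : ℝ := 2 * ∫ x in (0 : ℝ)..n, 1 / Real.log (x ^ 2 + x + A)

/-- the product of `1 - (Δ / p) / (p - 1)` over the odd primes `p ≤ z`, `Δ = 1 - 4 A`; its limit is `C(Δ)` -/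
noncomputable def partialC (A z : ℕ) : ℝ :=
  ∏ p ∈ (Icc 3 z).filter Nat.Prime, (1 - (jacobiSym (1 - 4 * (A : ℤ)) p : ℝ) / ((p : ℝ) - 1))

/-- **Theorem.** For all `ε, η > 0`, all large `N` and all `H` with `N^(2/3+ε) ≤ H ≤ N`, all but at most `η H` of the odd
numbers `3 ≤ A ≤ H` have the following property: the product `C(Δ)` converges to a number `C > 0`, and for all `n ≤ N`
the number `P_A(n)` is at least `(1/2) C L_A(n) - η C L_A(N)` and at most `(5/3) C L_A(n) + η C L_A(N)`. -/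
theorem result (ε η : ℝ) (hε : 0 < ε) (hη : 0 < η) :
    ∃ N0 : ℕ, ∀ N : ℕ, N0 ≤ N → ∀ H : ℕ, (N : ℝ) ^ (2 / 3 + ε) ≤ H → H ≤ N →
    ∃ Ex ⊆ (Icc 3 H).filter Odd, (#Ex : ℝ) ≤ η * H ∧ ∀ A ∈ (Icc 3 H).filter Odd, A ∉ Ex →
      ∃ C : ℝ, 0 < C ∧ Tendsto (partialC A) atTop (𝓝 C) ∧
        ∀ n : ℕ, n ≤ N →
          1 / 2 * (C * L A n) - η * (C * L A N) ≤ (P A n : ℝ) ∧
          (P A n : ℝ) ≤ 5 / 3 * (C * L A n) + η * (C * L A N) := by
  obtain ⟨N0, h⟩ := Pool.Agent.H568.euler_two ε η hε hη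
  refine ⟨N0, fun N hN H hH1 hH2 => ?_⟩
  obtain ⟨Ex, k1, k2, k3⟩ := h N hN H hH1 hH2
  refine ⟨Ex, k1, k2, fun A hA hAE => ?_⟩
  obtain ⟨C, m1, m2, m3⟩ := k3 A hA hAE
  refine ⟨C, m1, ?_, fun n hn => m3 n hn⟩
  have e : partialC A = fun z : ℕ => Pool.Agent.N792.partialC 1 1 (A : ℤ) z := by
    funext z
    unfold partialC Pool.Agent.N792.partialC
    have e1 : (Icc 3 z).filter (fun p : ℕ => p.Prime ∧ ¬ (p : ℤ) ∣ 1) = (Icc 3 z).filter Nat.Prime := by
      apply filter_congr
      intro p _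
      constructor
      · exact fun hp => hp.1
      · intro hp
        refine ⟨hp, fun h => ?_⟩
        have h1 : p ∣ 1 := by exact_mod_cast h
        exact hp.one_lt.ne' (Nat.dvd_one.1 h1)
    rw [e1]
    refine prod_congr rfl fun p _ => ?_
    have e2 : (1 : ℤ) ^ 2 - 4 * 1 * (A : ℤ) = 1 - 4 * (A : ℤ) := by ring
    rw [e2]
  rw [e]
  exact m2

end Pool.Agent.Results.MP_8be758_nt.TwoSidedThinFamily
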