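import Pool.Agent.H543.DP.Pack

/-!
# The primes `x ^ 2 + x + A`: an upper bound, and almost primes, for every odd `A`

Let `A ≥ 3` be odd and `F(x) = x ^ 2 + x + A`.  The number `P_A(n)` of the problem satisfies
`P_A(n) ≤ (48 / 13 + ε) C(Δ) L_A(n)`, and at least `κ L_A(n)` of the values `F(x)`, `x ≤ n`, have at
most two prime factors.  The same is proved for the integers `x` in `(X, X + H]` in a class `r` modulo
`Q`, uniformly in `X ^ (1 - δ) ≤ H ≤ X / 2` and `Q ≤ X ^ δ`, and every class with `F(r)` prime to `Q`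
contains an `x ≤ K Q ^ L` such that `F(x)` has at most two prime factors.
-/

set_option autoImplicit false

namespace Pool.Agent.Results.MP_8be758_nt.UpperBoundAndAlmostPrimes

open Filter Finset Topology

/-- `F(x) = x ^ 2 + x + A` -/
def F (A : ℕ) (x : ℤ) : ℤ := x ^ 2 + x + A

/-- the number of the `x` in `{0, …, n}` for which `F(x)` is prime -/
def P (A n : ℕ) : ℕ := ((Finset.range (n + 1)).filter (fun x : ℕ => (x ^ 2 + x + A).Prime)).card

/-- `L_A(n) = 2 ∫_0^n dx / log F(x)` -/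
noncomputable def L (A n : ℕ) : ℝ := 2 * ∫ x in (0 : ℝ)..(n : ℝ), 1 / Real.log (x ^ 2 + x + A)

/-- the partial products of `C(Δ)`, `Δ = 1 - 4 A` -/
noncomputable def partialC (A N : ℕ) : ℝ :=
  ∏ p ∈ (Finset.range (N + 1)).filter (fun p : ℕ => p.Prime ∧ 3 ≤ p),
    (1 - (jacobiSym (1 - 4 * (A : ℤ)) p : ℝ) / ((p : ℝ) - 1))

/-- `f` (a value of `F` at `x`) has at most two prime factors, counted with multiplicity, and they
are all at least `x ^ (23 / 100)` -/
def AlmostPrime (x : ℕ) (f : ℤ) : Prop :=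
  f.natAbs.primeFactorsList.length ≤ 2 ∧
    ∀ p : ℕ, p.Prime → p ∣ f.natAbs → (x : ℝ) ^ (23 / 100 : ℝ) ≤ p

/-- the integers of `(X, X + H]` in the class `r` modulo `Q` -/
def cls (X H Q : ℕ) (r : ℤ) : Finset ℕ :=
  (Finset.Ioc X (X + H)).filter (fun n : ℕ => (Q : ℤ) ∣ (n : ℤ) - r)

/-- the product of `1 - ω(p) / p` over the primes `p` dividing `Q`, where `ω(p)` is the number of the
roots of `F` modulo `p` -/
noncomputable def classFactor (A Q : ℕ) : ℝ :=
  ∏ p ∈ Q.primeFactors,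
    (1 - (((Finset.range p).filter (fun m : ℕ => (p : ℤ) ∣ F A m)).card : ℝ) / p)

/-- For some `δ > 0`, the assertion `R X H Q r` holds for all large `X`, all `H` with
`X ^ (1 - δ) ≤ H ≤ X / 2`, all `Q ≤ X ^ δ` and all classes `r` modulo `Q` with `F(r)` prime to `Q`. -/
def InAllClasses (A : ℕ) (R : ℕ → ℕ → ℕ → ℤ → Prop) : Prop :=
  ∃ δ : ℝ, 0 < δ ∧ ∀ᶠ X : ℕ in atTop, ∀ H : ℕ, (X : ℝ) ^ (1 - δ) ≤ H → 2 * H ≤ X →
    ∀ (Q : ℕ) (r : ℤ), 1 ≤ Q → (Q : ℝ) ≤ (X : ℝ) ^ δ → IsCoprime (F A r) Q → R X H Q r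

theorem F_eq (A : ℕ) (x : ℤ) : F A x = Pool.Agent.H543.DP.fv 1 1 A x := by
  unfold F Pool.Agent.H543.DP.fv
  push_cast
  ring

theorem Fpos (A : ℕ) (hA : 3 ≤ A) (x : ℝ) (hx : 0 ≤ x) : 3 ≤ x ^ 2 + x + A := by
  have h1 : (3 : ℝ) ≤ A := by exact_mod_cast hA
  nlinarith

theorem integrable (A : ℕ) (hA : 3 ≤ A) (u v : ℝ) (hu : 0 ≤ u) (huv : u ≤ v) :
    IntervalIntegrable (fun x : ℝ => 1 / Real.log (x ^ 2 + x + A)) MeasureTheory.volume u v := by
  apply ContinuousOn.intervalIntegrable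
  rw [Set.uIcc_of_le huv]
  intro x hx
  have h1 := Fpos A hA x (hu.trans hx.1)
  have h2 : 0 < Real.log (x ^ 2 + x + A) := Real.log_pos (by linarith)
  apply ContinuousAt.continuousWithinAt
  apply ContinuousAt.div continuousAt_const
  · apply ContinuousAt.log
    · fun_prop
    · linarith
  · exact h2.ne'

/-- `L_A(n)` is asymptotic to `n / log n`, lower bound -/
theorem L_low (A : ℕ) (hA : 3 ≤ A) (ε : ℝ) (hε : 0 < ε) :
    ∀ᶠ n : ℕ in atTop, (n : ℝ) / Real.log n ≤ (1 + ε) * L A n := by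
  have ev : ∀ᶠ n : ℕ in atTop, Real.log 2 / (2 * ε) ≤ Real.log n :=
    (Real.tendsto_log_atTop.comp tendsto_natCast_atTop_atTop).eventually_ge_atTop _
  filter_upwards [ev, eventually_ge_atTop (A + 3)] with n h1 h2
  have hnA : (A : ℝ) + 3 ≤ n := by exact_mod_cast h2
  have hA0 : (0 : ℝ) ≤ A := Nat.cast_nonneg _
  have hn3 : (3 : ℝ) ≤ n := by linarith
  have hn0 : (0 : ℝ) < n := by linarith
  have hln : 0 < Real.log n := Real.log_pos (by linarith)
  have hF : (n : ℝ) ^ 2 + n + A ≤ 2 * (n : ℝ) ^ 2 := by nlinarith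
  have hF3 := Fpos A hA n hn0.le
  have hlF : Real.log ((n : ℝ) ^ 2 + n + A) ≤ 2 * (1 + ε) * Real.log n := by
    calc Real.log ((n : ℝ) ^ 2 + n + A) ≤ Real.log (2 * (n : ℝ) ^ 2) :=
          Real.log_le_log (by linarith) hF
      _ = Real.log 2 + 2 * Real.log n := by
          rw [Real.log_mul (by norm_num) (by positivity), Real.log_pow]
          norm_num
      _ ≤ 2 * (1 + ε) * Real.log n := by
          rw [div_le_iff₀ (by positivity)] at h1
          linarith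
  have hlF0 : 0 < Real.log ((n : ℝ) ^ 2 + n + A) := Real.log_pos (by linarith)
  have h3 : ∫ _ in (0 : ℝ)..(n : ℝ), 1 / Real.log ((n : ℝ) ^ 2 + n + A) ≤
      ∫ x in (0 : ℝ)..(n : ℝ), 1 / Real.log (x ^ 2 + x + A) := by
    apply intervalIntegral.integral_mono_on hn0.le
    · simp
    · exact integrable A hA 0 n le_rfl hn0.le
    · intro x hx
      have h4 := Fpos A hA x hx.1
      have h5 : 0 < Real.log (x ^ 2 + x + A) := Real.log_pos (by linarith)
      apply one_div_le_one_div_of_le h5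
      apply Real.log_le_log (by linarith)
      have h6 := hx.2
      have h7 := hx.1
      nlinarith
  rw [intervalIntegral.integral_const, smul_eq_mul, sub_zero] at h3
  unfold L
  have h4 : (n : ℝ) / Real.log n ≤ (1 + ε) * (2 * (n * (1 / Real.log ((n : ℝ) ^ 2 + n + A)))) := by
    rw [div_le_iff₀ hln]
    have h5 : (1 : ℝ) ≤ 2 * (1 + ε) * Real.log n / Real.log ((n : ℝ) ^ 2 + n + A) := by
      rw [le_div_iff₀ hlF0, one_mul]
      exact hlF
    calc (n : ℝ) = n * 1 := by ring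
      _ ≤ n * (2 * (1 + ε) * Real.log n / Real.log ((n : ℝ) ^ 2 + n + A)) :=
          mul_le_mul_of_nonneg_left h5 hn0.le
      _ = _ := by ring
  refine h4.trans ?_
  apply mul_le_mul_of_nonneg_left _ (by linarith)
  linarith

/-- `L_A(n)` is at most `6 n / log n` -/
theorem L_up (A : ℕ) (hA : 3 ≤ A) : ∀ᶠ n : ℕ in atTop, L A n ≤ 6 * ((n : ℝ) / Real.log n) := by
  have ev : ∀ᶠ n : ℕ in atTop, Real.log n ≤ (n : ℝ) ^ (1 / 2 : ℝ) := by
    have h1 : Tendsto (fun x : ℝ => Real.log x / x ^ (1 / 2 : ℝ)) atTop (nhds 0) :=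
      (isLittleO_log_rpow_atTop (by norm_num)).tendsto_div_nhds_zero
    have h2 := h1.eventually_le_const (show (0 : ℝ) < 1 by norm_num)
    have h3 := tendsto_natCast_atTop_atTop.eventually (h2.and (eventually_gt_atTop (0 : ℝ)))
    filter_upwards [h3] with X hX
    obtain ⟨h4, h5⟩ := hX
    have h6 : (0 : ℝ) < (X : ℝ) ^ (1 / 2 : ℝ) := by positivity
    rw [div_le_iff₀ h6, one_mul] at h4
    exact h4
  filter_upwards [ev, eventually_ge_atTop 3] with n h1 h2
  have hn3 : (3 : ℝ) ≤ n := by exact_mod_cast h2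
  have hn0 : (0 : ℝ) < n := by linarith
  have hln : 0 < Real.log n := Real.log_pos (by linarith)
  obtain ⟨s, hs⟩ : ∃ s : ℝ, s = (n : ℝ) ^ (1 / 2 : ℝ) := ⟨_, rfl⟩
  rw [← hs] at h1
  have hs0 : 0 < s := by rw [hs]; positivity
  have hss : s * s = n := by
    rw [hs, ← Real.rpow_add hn0]
    norm_num
  have hsn : s ≤ n := by
    have h3 : 1 ≤ s := by
      rw [hs]
      exact Real.one_le_rpow (by linarith) (by norm_num)
    nlinarith
  have i1 := integrable A hA 0 s le_rfl hs0.le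
  have i2 := integrable A hA s n hs0.le hsn
  have h3 : ∫ x in (0 : ℝ)..s, 1 / Real.log (x ^ 2 + x + A) ≤ ∫ _ in (0 : ℝ)..s, (1 : ℝ) := by
    apply intervalIntegral.integral_mono_on hs0.le i1
    · simp
    · intro x hx
      have h4 := Fpos A hA x hx.1
      have h5 : 1 ≤ Real.log (x ^ 2 + x + A) := by
        rw [Real.le_log_iff_exp_le (by linarith)]
        linarith [Real.exp_one_lt_d9]
      rw [div_le_one (by linarith)]
      exact h5
  have h4 : ∫ x in s..(n : ℝ), 1 / Real.log (x ^ 2 + x + A) ≤ ∫ _ in s..(n : ℝ), 1 / Real.log n := by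
    apply intervalIntegral.integral_mono_on hsn i2
    · simp
    · intro x hx
      have h4 := Fpos A hA x (hs0.le.trans hx.1)
      apply one_div_le_one_div_of_le hln
      apply Real.log_le_log hn0
      have h5 := hx.1
      have hA0 : (0 : ℝ) ≤ A := Nat.cast_nonneg _
      nlinarith
  rw [intervalIntegral.integral_const, smul_eq_mul, mul_one, sub_zero] at h3
  rw [intervalIntegral.integral_const, smul_eq_mul] at h4
  unfold L
  rw [← intervalIntegral.integral_add_adjacent_intervals i1 i2]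
  have h5 : s ≤ n / Real.log n := by
    rw [le_div_iff₀ hln]
    calc s * Real.log n ≤ s * s := mul_le_mul_of_nonneg_left h1 hs0.le
      _ = n := hss
  have h6 : ((n : ℝ) - s) * (1 / Real.log n) ≤ n / Real.log n := by
    rw [mul_one_div]
    apply div_le_div_of_nonneg_right _ hln.le
    linarith
  have h7 : 0 ≤ (n : ℝ) / Real.log n := by positivity
  linarith

open Classical in
/-- **The primes and almost primes `x ^ 2 + x + A`, for every odd `A ≥ 3`.** -/
theorem result (A : ℕ) (hA : 3 ≤ A) (hodd : Odd A) :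
    ∃ C : ℝ, 0 < C ∧ Tendsto (partialC A) atTop (𝓝 C) ∧
      (∀ ε : ℝ, 0 < ε → ∀ᶠ n : ℕ in atTop, (P A n : ℝ) ≤ (48 / 13 + ε) * (C * L A n)) ∧
      (∃ κ : ℝ, 0 < κ ∧ ∀ᶠ n : ℕ in atTop, κ * L A n ≤
        (((Finset.range (n + 1)).filter (fun x : ℕ => AlmostPrime x (F A x))).card : ℝ)) ∧
      (∀ ε : ℝ, 0 < ε → InAllClasses A fun X H Q r =>
        (((cls X H Q r).filter (fun n : ℕ => Prime (F A n))).card : ℝ) ≤
          (48 / 13 + ε) * C * ((H : ℝ) / (Q * classFactor A Q * Real.log X))) ∧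
      (∀ η : ℝ, 0 < η → η < 13 / 24 → ∃ κ : ℝ, 0 < κ ∧ InAllClasses A fun X H Q r =>
        κ * ((H : ℝ) / (Q * Real.log X)) ≤ (((cls X H Q r).filter (fun n : ℕ =>
          ∀ p : ℕ, p.Prime → (p : ℤ) ∣ F A n → (n : ℝ) ^ η < p)).card : ℝ)) ∧
      (∃ κ : ℝ, 0 < κ ∧ InAllClasses A fun X H Q r =>
        κ * ((H : ℝ) / (Q * Real.log X)) ≤
          (((cls X H Q r).filter (fun n : ℕ => AlmostPrime n (F A n))).card : ℝ)) ∧
      ∃ M K : ℝ, ∀ (Q : ℕ) (r : ℤ), 1 ≤ Q → IsCoprime (F A r) Q →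
        ∃ n : ℕ, (n : ℝ) ≤ K * (Q : ℝ) ^ M ∧ (Q : ℤ) ∣ (n : ℤ) - r ∧
          (F A n).natAbs.primeFactorsList.length ≤ 2 := by
  obtain ⟨A0, Fu, fl, hSF⟩ := Pool.Agent.W366.DC.SFX
  have hA0 : A0 = 2 * Real.exp Real.eulerMascheroniConstant :=
    Pool.Agent.Y882.JR.A0_eq Pool.Agent.Y445.JRB.t hSF
  obtain ⟨k, hk⟩ := hodd
  have hna : ¬ IsSquare (-(Pool.Agent.H543.DP.dt 1 1 (A : ℤ))) := by
    rintro ⟨s, hs⟩
    have h1 : 0 ≤ s * s := mul_self_nonneg s
    rw [← hs] at h1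
    unfold Pool.Agent.H543.DP.dt at h1
    push_cast at h1
    omega
  have hg : Int.gcd (Int.gcd ((1 : ℕ) : ℤ) 1 : ℤ) (A : ℤ) = 1 := by simp
  have ho : ¬ (Even (((1 : ℕ) : ℤ) + 1) ∧ Even (A : ℤ)) := by
    rintro ⟨-, h1⟩
    obtain ⟨m, hm⟩ := h1
    omega
  obtain ⟨S, hS0, hS⟩ := Pool.Agent.H543.DP.cpr_conv 1 1 (A : ℤ) le_rfl hna
  have hcf : Pool.Agent.H543.DP.cfac 1 1 = 1 := by
    unfold Pool.Agent.H543.DP.cfac
    rw [if_pos (by decide)]
    simp
  have hpc : partialC A = Pool.Agent.H543.DP.cpr 1 1 (A : ℤ) := by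
    funext N
    unfold partialC Pool.Agent.H543.DP.cpr
    have e1 : (Finset.range (N + 1)).filter (fun p : ℕ => p.Prime ∧ 3 ≤ p) =
        (Finset.range (N + 1)).filter (fun p : ℕ => Nat.Prime p ∧ 3 ≤ p ∧
          ¬ ((p : ℤ) ∣ ((1 : ℕ) : ℤ))) := by
      apply filter_congr
      intro p _
      constructor
      · rintro ⟨h1, h2⟩
        refine ⟨h1, h2, fun hd => ?_⟩
        have h3 : p ∣ 1 := by exact_mod_cast hd
        exact h1.one_lt.ne' (Nat.dvd_one.1 h3)
      · rintro ⟨h1, h2, -⟩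
        exact ⟨h1, h2⟩
    rw [e1]
    apply prod_congr rfl
    intro p _
    have e2 : (1 : ℤ) ^ 2 - 4 * ((1 : ℕ) : ℤ) * (A : ℤ) = 1 - 4 * (A : ℤ) := by
      push_cast
      ring
    rw [e2]
  refine ⟨S, hS0, ?_, ?_, ?_, ?_, ?_, ?_, ?_⟩
  · rw [hpc]
    exact hS
  · intro ε hε
    obtain ⟨e, he0, he⟩ : ∃ e : ℝ, 0 < e ∧ (48 / 13 + e) * (1 + e) ≤ 48 / 13 + ε := by
      refine ⟨min 1 (ε / 10), lt_min one_pos (by linarith), ?_⟩
      have h1 : min 1 (ε / 10) ≤ 1 := min_le_left _ _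
      have h2 : min 1 (ε / 10) ≤ ε / 10 := min_le_right _ _
      have h3 : 0 < min 1 (ε / 10) := lt_min one_pos (by linarith)
      nlinarith
    have h1 := Pool.Agent.H543.DP.pcN_up Pool.Agent.Y346.PA.kl 1 1 (A : ℤ) le_rfl hna hg ho S hS0 hS
      (e / 2) (by linarith)
    have ev : ∀ᶠ n : ℕ in atTop, 1 ≤ (e / 2) * S * ((n : ℝ) / Real.log n) := by
      have h2 : Tendsto (fun x : ℝ => Real.log x / x) atTop (nhds 0) := by
        have := (isLittleO_log_rpow_atTop (show (0 : ℝ) < 1 by norm_num)).tendsto_div_nhds_zero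
        simpa using this
      have h3 := h2.eventually_le_const (show (0 : ℝ) < (e / 2) * S by positivity)
      have h4 := tendsto_natCast_atTop_atTop.eventually (h3.and (eventually_gt_atTop (1 : ℝ)))
      filter_upwards [h4] with n hn
      obtain ⟨h5, h6⟩ := hn
      have h7 : 0 < Real.log n := Real.log_pos h6
      rw [div_le_iff₀ (by linarith)] at h5
      rw [← mul_div_assoc, le_div_iff₀ h7]
      linarith
    filter_upwards [h1, L_low A hA e he0, ev, eventually_ge_atTop 2] with n h2 h3 h4 h5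
    have h6 : P A n ≤ 1 + Pool.Agent.H543.DP.pcN 1 1 (A : ℤ) n := by
      unfold P Pool.Agent.H543.DP.pcN
      have h7 : (Finset.range (n + 1)).filter (fun x : ℕ => (x ^ 2 + x + A).Prime) ⊆
          {0} ∪ (Icc 1 n).filter (fun n : ℕ => Prime (Pool.Agent.H543.DP.fv 1 1 (A : ℤ) n)) := by
        intro x hx
        rw [mem_filter, mem_range] at hx
        rw [mem_union, mem_singleton, mem_filter, mem_Icc]
        by_cases hx0 : x = 0
        · left
          exact hx0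
        · right
          refine ⟨⟨by omega, by omega⟩, ?_⟩
          have h8 : Pool.Agent.H543.DP.fv 1 1 (A : ℤ) x = ((x ^ 2 + x + A : ℕ) : ℤ) := by
            unfold Pool.Agent.H543.DP.fv
            push_cast
            ring
          rw [h8]
          exact Nat.prime_iff_prime_int.1 hx.2
      refine (card_le_card h7).trans ((card_union_le _ _).trans ?_)
      rw [card_singleton]
    have h7 : (P A n : ℝ) ≤ 1 + Pool.Agent.H543.DP.pcN 1 1 (A : ℤ) n := by exact_mod_cast h6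
    rw [hcf, one_mul] at h2
    have hn0 : (2 : ℝ) ≤ n := by exact_mod_cast h5
    have h8 : 0 < (n : ℝ) / Real.log n := by
      have := Real.log_pos (show (1 : ℝ) < n by linarith)
      positivity
    have hL0 : 0 < L A n := by
      have h9 : 0 < (1 + e) * L A n := lt_of_lt_of_le h8 h3
      exact pos_of_mul_pos_right h9 (by linarith)
    calc (P A n : ℝ) ≤ (48 / 13 + e) * S * ((n : ℝ) / Real.log n) := by linarith
      _ ≤ (48 / 13 + e) * S * ((1 + e) * L A n) := mul_le_mul_of_nonneg_left h3 (by positivity)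
      _ = (48 / 13 + e) * (1 + e) * (S * L A n) := by ring
      _ ≤ (48 / 13 + ε) * (S * L A n) := mul_le_mul_of_nonneg_right he (by positivity)
  · obtain ⟨κ, hκ, h1⟩ := Pool.Agent.H543.DP.p2N_low Pool.Agent.Y346.PA.kl 1 1 (A : ℤ) le_rfl hna hg ho
    refine ⟨κ / 6, by positivity, ?_⟩
    filter_upwards [h1, L_up A hA] with n h2 h3
    have h4 : ((Icc 1 n).filter (fun n : ℕ =>
        (Pool.Agent.H543.DP.NV 1 1 (A : ℤ) n).primeFactorsList.length ≤ 2 ∧
        ∀ p : ℕ, p.Prime → p ∣ Pool.Agent.H543.DP.NV 1 1 (A : ℤ) n →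
          (n : ℝ) ^ (23 / 100 : ℝ) ≤ p)) ⊆
        (Finset.range (n + 1)).filter (fun x : ℕ => AlmostPrime x (F A x)) := by
      intro x hx
      rw [mem_filter, mem_Icc] at hx
      rw [mem_filter, mem_range]
      refine ⟨by omega, ?_⟩
      unfold AlmostPrime
      rw [F_eq]
      exact hx.2
    have h5 : (((Icc 1 n).filter (fun n : ℕ =>
        (Pool.Agent.H543.DP.NV 1 1 (A : ℤ) n).primeFactorsList.length ≤ 2 ∧
        ∀ p : ℕ, p.Prime → p ∣ Pool.Agent.H543.DP.NV 1 1 (A : ℤ) n →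
          (n : ℝ) ^ (23 / 100 : ℝ) ≤ p)).card : ℝ) ≤
        (((Finset.range (n + 1)).filter (fun x : ℕ => AlmostPrime x (F A x))).card : ℝ) := by
      exact_mod_cast card_le_card h4
    refine le_trans ?_ (h2.trans h5)
    calc κ / 6 * L A n ≤ κ / 6 * (6 * ((n : ℝ) / Real.log n)) :=
          mul_le_mul_of_nonneg_left h3 (by positivity)
      _ = _ := by ring
  · intro ε hε
    obtain ⟨δ, hδ, h5⟩ := Pool.Agent.H543.DP.prime_f Pool.Agent.Y346.PA.kl 1 1 (A : ℤ) le_rfl hna hg ho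
      A0 Fu fl hSF hA0 S hS0 hS ε hε
    refine ⟨δ, hδ, ?_⟩
    filter_upwards [Pool.Agent.H543.DP.to_half 1 _ δ h5] with X h6
    intro H h7 h8 Q r h9 h10 h11
    rw [F_eq] at h11
    have h12 := h6 H h7 h8 Q r h9 h10 h11
    rw [hcf, one_mul] at h12
    unfold classFactor
    simp only [F_eq]
    exact h12
  · intro η h1 h2
    obtain ⟨δ, hδ, κ, hκ, h5⟩ := Pool.Agent.H543.DP.rgh_f Pool.Agent.Y346.PA.kl 1 1 (A : ℤ) le_rfl hna
      hg ho A0 Fu fl hSF S hS0 hS η h1 h2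
    refine ⟨κ, hκ, δ, hδ, ?_⟩
    filter_upwards [Pool.Agent.H543.DP.to_half 1 _ δ h5] with X h6
    intro H h7 h8 Q r h9 h10 h11
    rw [F_eq] at h11
    simp only [F_eq]
    exact h6 H h7 h8 Q r h9 h10 h11
  · obtain ⟨δ, hδ, κ, hκ, h5⟩ := Pool.Agent.H543.DP.p2_f Pool.Agent.Y346.PA.kl 1 1 (A : ℤ) le_rfl hna
      hg ho
    refine ⟨κ, hκ, δ, hδ, ?_⟩
    filter_upwards [Pool.Agent.H543.DP.to_half 1 _ δ h5] with X h6
    intro H h7 h8 Q r h9 h10 h11
    rw [F_eq] at h11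
    unfold AlmostPrime
    simp only [F_eq]
    exact h6 H h7 h8 Q r h9 h10 h11
  · obtain ⟨M, K, h5⟩ := Pool.Agent.H543.DP.least_f Pool.Agent.Y346.PA.kl 1 1 (A : ℤ) le_rfl hna hg ho
    refine ⟨M, K, ?_⟩
    intro Q r hQ hc
    rw [F_eq] at hc
    obtain ⟨n, h6, h7, -, h8⟩ := h5 Q r hQ hc
    refine ⟨n, h6, h7, ?_⟩
    rw [F_eq]
    exact h8

end Pool.Agent.Results.MP_8be758_nt.UpperBoundAndAlmostPrimes
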